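import Pool.Agent.Lib.MP_19e277_an.Main
import Pool.Agent.Lib.MP_19e277_an.Exist

/-!
# A finitely strictly singular operator `ℓ_p → c_0` outside the closed ideal generated by `K`

For every `1 < p < ∞` with `p ≠ 2` (real or complex scalars) and every choice of the maps `K_n`
(such choices exist, `nonempty_KChoice`), the inclusion `FS(ℓ_p, c_0) ⊆ J^K(ℓ_p, c_0)` fails.

The coordinates of `ℓ_p` are indexed by the points of the affine planes over the prime fields
`𝔽_q`, those of `c_0` by the polynomial functions `f` over `𝔽_q` with `k` coefficients, and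
`(Tx)_f = q^{-1/p'} ∑_a x_{(a, f(a))}`.  Two graphs meet in fewer than `k` points, which makes `T`
finitely strictly singular.  If `T` were in the closed ideal, the normalised indicators of the
graphs would be detected by Hilbert space valued block maps; for `p < 2` (and `k = 2`) averaging
over all lines and for `p > 2` (and `k > 1 + p/2`) a choice of signs gives a contradiction.
-/

open scoped ENNReal

namespace Pool.Agent.Results.MP_19e277_an.NotSubset

open Pool.Agent.MP_19e277_an

universe u

theorem result (𝕜 : Type u) [RCLike 𝕜] (p : ℝ≥0∞) [Fact (1 ≤ p)] (h1 : 1 < p) (hp : p ≠ ∞)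
    (h2 : p ≠ 2) (D : KChoice 𝕜) :
    ∃ T : EllP 𝕜 p →L[𝕜] CZero 𝕜 ℕ, IsFinitelyStrictlySingular T ∧
      T ∉ closedIdeal (diagOp hp D) :=
  not_subset h1 hp h2 D

end Pool.Agent.Results.MP_19e277_an.NotSubset
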